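import Pool.Agent.Lib.Pa7c826.Scheme

/-!
Dense balanced bipartite graphs with degrees in a given range.
-/

namespace Pool.Agent.Lib.Pa7c826z

open Pool.Agent.Lib.Pa7c826

/-- Balanced bipartite graphs with `N` vertices on each side, all of whose degrees lie between
`x N - w N` and `y N + w N` (where `w N` is the value of the function `w` at `N`). -/
def DegreeRange (x y : ℝ) (w : ℕ → ℝ) (G : BGraph) : Prop :=
  G.a = G.b ∧
    (∀ i, x * G.a - w G.a ≤ G.rowDeg i ∧ (G.rowDeg i : ℝ) ≤ y * G.a + w G.a) ∧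
    ∀ j, x * G.a - w G.a ≤ G.colDeg j ∧ (G.colDeg j : ℝ) ≤ y * G.a + w G.a

end Pool.Agent.Lib.Pa7c826z
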