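import Pool.Agent.Lib.Pa7c826z.Host
import Pool.Agent.Lib.Pa7c826z.Defs
import Pool.Agent.Lib.Pa7c826y.HardRed

/-!
The hard instances of a given density at the level of strings.
-/

namespace Pool.Agent.Lib.Pa7c826z

open Pool.Agent.Lib.Pa7c826
open Pool.Agent.Lib.Pa7c826y
open Pool.Agent.Lib.PolyTime

/-! ### Numbering -/

/-- numbering of the vertices of one side -/
def eq4 (h p q : ℕ) : (Fin h × Fin p) ⊕ (Fin h × Fin q) ≃ Fin (h * p + h * q) :=
  (Equiv.sumCongr finProdFinEquiv finProdFinEquiv).trans finSumFinEquiv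

theorem eq4_1 (h p q : ℕ) (x : Fin h × Fin p) :
    (eq4 h p q (.inl x) : ℕ) = x.2 + p * x.1 := by
  simp [eq4, finProdFinEquiv]

theorem eq4_2 (h p q : ℕ) (x : Fin h × Fin q) :
    (eq4 h p q (.inr x) : ℕ) = h * p + (x.2 + q * x.1) := by
  simp [eq4, finProdFinEquiv]

theorem lt_prod {h p : ℕ} (x : Fin h × Fin p) : (x.2 : ℕ) + p * x.1 < h * p := by
  have := (finProdFinEquiv x).2
  simpa [finProdFinEquiv] using this

theorem div_prod {h p : ℕ} (x : Fin h × Fin p) : ((x.2 : ℕ) + p * x.1) / p = x.1 := by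
  have h1 := x.2.2
  rw [Nat.add_mul_div_left _ _ (by omega), Nat.div_eq_of_lt h1, Nat.zero_add]

/-- adjacency of the new graph -/
def F4 (h d p q : ℕ) (F : ℕ → ℕ → Bool) (i j : ℕ) : Bool :=
  ((decide (i < h * p) && decide (j < h * q)) && decide ((h - i / p + j / q) % h < d)) ||
  (((decide (h * p ≤ i) && decide (h * q ≤ j)) &&
    decide ((h - (i - h * p) / q + (j - h * q) / p) % h < d)) ||
   ((decide (h * p ≤ i) && decide (j < h * q)) && F (i - h * p) j))

/-- the relation of the instance -/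
def rel0 (h q : ℕ) (F : ℕ → ℕ → Bool) (x y : Fin h × Fin q) : Prop :=
  F (x.2 + q * x.1) (y.2 + q * y.1) = true

/-- the whole relation -/
abbrev rel4 (h d p q : ℕ) (F : ℕ → ℕ → Bool) :=
  host (blw h d p q) (blw h d q p) (rel0 h q F)

theorem F4_iff {h d p q : ℕ} (F : ℕ → ℕ → Bool) (x : (Fin h × Fin p) ⊕ (Fin h × Fin q))
    (y : (Fin h × Fin q) ⊕ (Fin h × Fin p)) :
    rel4 h d p q F x y ↔ F4 h d p q F (eq4 h p q x) (eq4 h q p y) = true := by
  rcases x with x | x <;> rcases y with y | y <;>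
    simp only [eq4_1, eq4_2, F4, rel4, host, Bool.or_eq_true, Bool.and_eq_true,
      decide_eq_true_eq, Nat.add_sub_cancel_left, div_prod, blw, cir, rel0] <;>
    have hx := lt_prod x <;> have hy := lt_prod y
  · constructor
    · intro h1
      exact Or.inl ⟨⟨hx, hy⟩, h1⟩
    · rintro (h1 | h1 | h1)
      · exact h1.2
      · omega
      · omega
  · simp only [false_iff]
    rintro (h1 | h1 | h1) <;> omega
  · constructor
    · intro h1
      exact Or.inr (Or.inr ⟨⟨by omega, hy⟩, h1⟩)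
    · rintro (h1 | h1 | h1)
      · omega
      · omega
      · exact h1.2
  · constructor
    · intro h1
      exact Or.inr (Or.inl ⟨⟨by omega, by omega⟩, h1⟩)
    · rintro (h1 | h1 | h1)
      · omega
      · exact h1.2
      · omega

/-! ### The reduction -/

variable (h d k : ℕ)

/-- imbalance -/
def s4 (G : BGraph) (t : ℕ) : ℕ := h + G.a + G.b + t + 1

/-- bound for the deviation of the degrees -/
def r4 (G : BGraph) (t : ℕ) : ℕ := d * s4 h G t + G.a + G.b + 1

/-- size of the small classes -/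
def p4 (G : BGraph) (t : ℕ) : ℕ := r4 h d G t ^ k

/-- size of the large classes -/
def q4 (G : BGraph) (t : ℕ) : ℕ := p4 h d k G t + 2 * s4 h G t

/-- The new graph. -/
def red4 (G : BGraph) (t : ℕ) : BGraph :=
  mkGraph (h * p4 h d k G t + h * q4 h d k G t) (h * q4 h d k G t + h * p4 h d k G t)
    (F4 h d (p4 h d k G t) (q4 h d k G t) G.F)

/-- The exponent. -/
def K4 (G : BGraph) (t : ℕ) : ℕ :=
  (h * q4 h d k G t - G.a) + (h * q4 h d k G t - G.b)

theorem numIndep_red4 (G : BGraph) (t : ℕ) :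
    numIndep (red4 h d k G t).graph =
      cnt (rel4 h d (p4 h d k G t) (q4 h d k G t) G.F) :=
  numIndep_mkGraph (eq4 _ _ _) (eq4 _ _ _) (fun x y => F4_iff G.F x y)

theorem cnt_rel0 (G : BGraph) {q : ℕ} (ha : G.a ≤ h * q) (hb : G.b ≤ h * q) :
    cnt (rel0 h q G.F) = numIndep G.graph * 2 ^ ((h * q - G.a) + (h * q - G.b)) := by
  rw [← cnt_padded G ha hb]
  refine cnt_congr finProdFinEquiv finProdFinEquiv ?_
  intro x y
  unfold rel0
  simp [finProdFinEquiv]

theorem pow_bound {ε : ℚ} (h0 : 0 ≤ ε) (h1 : ε ≤ 1) (n : ℕ) :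
    (1 + ε) ^ n ≤ 1 + (2 ^ n - 1) * ε := by
  induction n with
  | zero => simp
  | succ n ih =>
    have h2 : (1 : ℚ) ≤ 2 ^ n := one_le_pow₀ (by norm_num)
    have h3 : (1 + ε) ^ (n + 1) ≤ (1 + (2 ^ n - 1) * ε) * (1 + ε) := by
      rw [pow_succ]
      exact mul_le_mul_of_nonneg_right ih (by linarith)
    refine h3.trans ?_
    rw [pow_succ]
    have h4 : (2 ^ n - 1) * ε * ε ≤ (2 ^ n - 1) * ε * 1 :=
      mul_le_mul_of_nonneg_left h1 (mul_nonneg (by linarith) h0)
    nlinarith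

variable {h d}

theorem sizes (hh : 0 < h) (G : BGraph) (t : ℕ) :
    G.a ≤ h * q4 h d k G t ∧ G.b ≤ h * q4 h d k G t := by
  have h1 : q4 h d k G t ≤ h * q4 h d k G t := Nat.le_mul_of_pos_left _ hh
  unfold q4 s4 at *
  omega

theorem red4_lower (hh : 0 < h) (G : BGraph) (t : ℕ) :
    (numIndep G.graph : ℚ) ≤ numIndep (red4 h d k G t).graph / 2 ^ K4 h d k G t := by
  obtain ⟨ha, hb⟩ := sizes (d := d) k hh G t
  rw [le_div_iff₀ (by positivity)]
  rw [numIndep_red4]
  have h1 := (host_bounds (blw h d (p4 h d k G t) (q4 h d k G t))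
    (blw h d (q4 h d k G t) (p4 h d k G t)) (rel0 h (q4 h d k G t) G.F)).1
  rw [cnt_rel0 h G ha hb] at h1
  unfold K4
  exact_mod_cast h1

theorem red4_upper (hh : 0 < h) (hd : 0 < d) (G : BGraph) (t : ℕ) :
    (numIndep (red4 h d k G t).graph : ℚ) / 2 ^ K4 h d k G t ≤
      numIndep G.graph + numIndep G.graph / (2 * t + 1) := by
  obtain ⟨ha, hb⟩ := sizes (d := d) k hh G t
  have h1 := (host_bounds (blw h d (p4 h d k G t) (q4 h d k G t))
    (blw h d (q4 h d k G t) (p4 h d k G t)) (rel0 h (q4 h d k G t) G.F)).2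
  rw [cnt_rel0 h G ha hb] at h1
  have h2 := Nat.mul_le_mul (cnt_blw_le (h := h) hd (p4 h d k G t) (q4 h d k G t))
    (cnt_blw_le (h := h) hd (q4 h d k G t) (p4 h d k G t))
  rw [Nat.card_prod, Nat.card_fin, Nat.card_fin] at h1
  set p := p4 h d k G t with hp
  set q := q4 h d k G t with hq
  set s := s4 h G t with hs
  have hqp : q = p + 2 * s := rfl
  have hK : K4 h d k G t = (h * q - G.a) + (h * q - G.b) := rfl
  rw [← hK] at h1
  rw [numIndep_red4, div_le_iff₀ (by positivity)]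
  set R : ℚ := (cnt (rel4 h d p q G.F) : ℚ) with hR
  set X : ℚ := (numIndep G.graph : ℚ) with hX
  have hX1 : (1 : ℚ) ≤ X := by
    rw [hX]
    exact_mod_cast one_le_numIndep G
  set ε : ℚ := (1 / 2) ^ (2 * s) with hε
  have hε0 : 0 ≤ ε := by positivity
  have hε1 : ε ≤ 1 := pow_le_one₀ (by norm_num) (by norm_num)
  have e1 : (2 : ℚ) ^ p = 2 ^ q * ε := by
    rw [hqp, hε, pow_add, mul_assoc, ← mul_pow]
    norm_num
  have h3 : ((cnt (blw h d p q) * cnt (blw h d q p) : ℕ) : ℚ) ≤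
      2 ^ (h * q + h * q) * (1 + ε) ^ (2 * h) := by
    have h4 : ((cnt (blw h d p q) * cnt (blw h d q p) : ℕ) : ℚ) ≤
        ((2 : ℚ) ^ p + 2 ^ q) ^ h * (2 ^ q + 2 ^ p) ^ h := by exact_mod_cast h2
    refine h4.trans (le_of_eq ?_)
    rw [e1]
    have e2 : (2 : ℚ) ^ q * ε + 2 ^ q = 2 ^ q * (1 + ε) := by ring
    have e3 : (2 : ℚ) ^ q + 2 ^ q * ε = 2 ^ q * (1 + ε) := by ring
    rw [e2, e3, mul_pow, ← pow_mul, pow_add, mul_comm q h, two_mul h, pow_add]
    ring
  have h5 : R + 2 ^ (h * q + h * q) ≤ X * 2 ^ K4 h d k G t +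
      2 ^ (h * q + h * q) * (1 + ε) ^ (2 * h) := by
    have h6 : R + 2 ^ (h * q + h * q) ≤ X * 2 ^ K4 h d k G t +
        ((cnt (blw h d p q) * cnt (blw h d q p) : ℕ) : ℚ) := by
      rw [hR, hX]
      exact_mod_cast h1
    linarith
  have h7 := pow_bound hε0 hε1 (2 * h)
  have h8 : (2 : ℚ) ^ (h * q + h * q) = 2 ^ (G.a + G.b) * 2 ^ K4 h d k G t := by
    rw [hK, ← pow_add]
    congr 1
    omega
  have h9 : (2 : ℚ) ^ (h * q + h * q) * (1 + ε) ^ (2 * h) ≤
      2 ^ (h * q + h * q) + 2 ^ (h * q + h * q) * (2 ^ (2 * h) * ε) := by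
    have h10 : (1 + ε) ^ (2 * h) ≤ 1 + 2 ^ (2 * h) * ε := by
      have : (2 ^ (2 * h) - 1) * ε ≤ 2 ^ (2 * h) * ε :=
        mul_le_mul_of_nonneg_right (by linarith) hε0
      linarith
    have h11 := mul_le_mul_of_nonneg_left h10
      (by positivity : (0 : ℚ) ≤ 2 ^ (h * q + h * q))
    rw [mul_add, mul_one] at h11
    exact h11
  have h12 : (2 : ℚ) ^ (G.a + G.b) * (2 ^ (2 * h) * ε) ≤ 1 / (2 * t + 1) := by
    rw [le_div_iff₀ (by positivity)]
    have h13 : (2 * t + 1 : ℚ) ≤ 2 ^ (2 * t) := by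
      have : 2 * t + 1 ≤ 2 ^ (2 * t) := Nat.lt_two_pow_self
      exact_mod_cast this
    have h14 : (2 : ℚ) ^ (G.a + G.b) * (2 ^ (2 * h) * ε) * (2 * t + 1) ≤
        2 ^ (G.a + G.b) * (2 ^ (2 * h) * ε) * 2 ^ (2 * t) :=
      mul_le_mul_of_nonneg_left h13 (by positivity)
    refine h14.trans ?_
    have e5 : (2 : ℚ) ^ (G.a + G.b) * (2 ^ (2 * h) * ε) * 2 ^ (2 * t) =
        2 ^ (G.a + G.b + 2 * h + 2 * t) * ε := by
      rw [pow_add, pow_add]
      ring
    have e6 : (2 : ℚ) ^ (2 * s) * ε = 1 := by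
      rw [hε, ← mul_pow]
      norm_num
    rw [e5, ← e6]
    refine mul_le_mul_of_nonneg_right (pow_le_pow_right₀ (by norm_num) ?_) hε0
    rw [hs]
    unfold s4
    omega
  have hKpos : (0 : ℚ) < 2 ^ K4 h d k G t := by positivity
  have h15 : R ≤ X * 2 ^ K4 h d k G t + 2 ^ K4 h d k G t * (1 / (2 * t + 1)) := by
    have h16 : 2 ^ (h * q + h * q) * (2 ^ (2 * h) * ε) =
        2 ^ K4 h d k G t * (2 ^ (G.a + G.b) * (2 ^ (2 * h) * ε)) := by
      rw [h8]; ring
    have h17 := mul_le_mul_of_nonneg_left h12 hKpos.le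
    rw [← h16] at h17
    linarith
  have h18 : (1 : ℚ) / (2 * t + 1) ≤ X / (2 * t + 1) :=
    div_le_div_of_nonneg_right hX1 (by positivity)
  have h19 := mul_le_mul_of_nonneg_left h18 hKpos.le
  rw [add_mul]
  linarith

/-! ### Degrees -/

theorem red4_rowDeg (hdh : d ≤ h) (G : BGraph) (t : ℕ) (i : Fin (red4 h d k G t).a) :
    d * (p4 h d k G t + s4 h G t) ≤ (red4 h d k G t).rowDeg i + r4 h d G t ∧
      (red4 h d k G t).rowDeg i ≤ d * (p4 h d k G t + s4 h G t) + r4 h d G t := by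
  revert i
  show ∀ i : Fin (h * p4 h d k G t + h * q4 h d k G t),
    d * (p4 h d k G t + s4 h G t) ≤ (red4 h d k G t).rowDeg i + r4 h d G t ∧
      (red4 h d k G t).rowDeg i ≤ d * (p4 h d k G t + s4 h G t) + r4 h d G t
  intro i
  obtain ⟨x, rfl⟩ := (eq4 h (p4 h d k G t) (q4 h d k G t)).surjective i
  have h1 : (red4 h d k G t).rowDeg (eq4 h (p4 h d k G t) (q4 h d k G t) x) = _ :=
    rowDeg_mkGraph (eq4 h (p4 h d k G t) (q4 h d k G t))
      (eq4 h (q4 h d k G t) (p4 h d k G t)) (fun x y => F4_iff G.F x y) x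
  have e : d * (p4 h d k G t + s4 h G t) = d * p4 h d k G t + d * s4 h G t := by ring
  have e2 : d * q4 h d k G t = d * p4 h d k G t + 2 * (d * s4 h G t) := by
    unfold q4; ring
  rcases x with x | x
  · have h2 := host_row_inl (blw h d (p4 h d k G t) (q4 h d k G t))
      (blw h d (q4 h d k G t) (p4 h d k G t)) (rel0 h (q4 h d k G t) G.F) x
    rw [ncard_blw_row hdh] at h2
    rw [h1, h2]
    unfold r4
    omega
  · have h2 := host_row_inr (blw h d (p4 h d k G t) (q4 h d k G t))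
      (blw h d (q4 h d k G t) (p4 h d k G t)) (rel0 h (q4 h d k G t) G.F) x
    rw [ncard_blw_row hdh] at h2
    have h3 : {y | rel0 h (q4 h d k G t) G.F x y}.ncard ≤ G.b := by
      have h4 := ncard_row_le (w := h * q4 h d k G t) G (finProdFinEquiv x)
      have h5 : {y | rel0 h (q4 h d k G t) G.F x y}.ncard ≤
          {y : Fin (h * q4 h d k G t) | G.F (finProdFinEquiv x : Fin _) y = true}.ncard := by
        rw [← Set.ncard_image_of_injective _ (finProdFinEquiv (m := h)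
          (n := q4 h d k G t)).injective]
        refine Set.ncard_le_ncard ?_ (Set.toFinite _)
        rintro _ ⟨y, hy, rfl⟩
        simp only [Set.mem_ofPred_eq, rel0] at hy ⊢
        simpa [finProdFinEquiv] using hy
      exact h5.trans h4
    rw [h1, h2]
    unfold r4
    omega

theorem red4_colDeg (hdh : d ≤ h) (G : BGraph) (t : ℕ) (j : Fin (red4 h d k G t).b) :
    d * (p4 h d k G t + s4 h G t) ≤ (red4 h d k G t).colDeg j + r4 h d G t ∧
      (red4 h d k G t).colDeg j ≤ d * (p4 h d k G t + s4 h G t) + r4 h d G t := by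
  revert j
  show ∀ j : Fin (h * q4 h d k G t + h * p4 h d k G t),
    d * (p4 h d k G t + s4 h G t) ≤ (red4 h d k G t).colDeg j + r4 h d G t ∧
      (red4 h d k G t).colDeg j ≤ d * (p4 h d k G t + s4 h G t) + r4 h d G t
  intro j
  obtain ⟨y, rfl⟩ := (eq4 h (q4 h d k G t) (p4 h d k G t)).surjective j
  have h1 : (red4 h d k G t).colDeg (eq4 h (q4 h d k G t) (p4 h d k G t) y) = _ :=
    colDeg_mkGraph (eq4 h (p4 h d k G t) (q4 h d k G t))
      (eq4 h (q4 h d k G t) (p4 h d k G t)) (fun x y => F4_iff G.F x y) y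
  have e : d * (p4 h d k G t + s4 h G t) = d * p4 h d k G t + d * s4 h G t := by ring
  have e2 : d * q4 h d k G t = d * p4 h d k G t + 2 * (d * s4 h G t) := by
    unfold q4; ring
  rcases y with y | y
  · have h2 := host_col_inl (blw h d (p4 h d k G t) (q4 h d k G t))
      (blw h d (q4 h d k G t) (p4 h d k G t)) (rel0 h (q4 h d k G t) G.F) y
    rw [ncard_blw_col hdh] at h2
    have h3 : {x | rel0 h (q4 h d k G t) G.F x y}.ncard ≤ G.a := by
      have h4 := ncard_col_le (w := h * q4 h d k G t) G (finProdFinEquiv y)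
      have h5 : {x | rel0 h (q4 h d k G t) G.F x y}.ncard ≤
          {x : Fin (h * q4 h d k G t) | G.F x (finProdFinEquiv y : Fin _) = true}.ncard := by
        rw [← Set.ncard_image_of_injective _ (finProdFinEquiv (m := h)
          (n := q4 h d k G t)).injective]
        refine Set.ncard_le_ncard ?_ (Set.toFinite _)
        rintro _ ⟨x, hx, rfl⟩
        simp only [Set.mem_ofPred_eq, rel0] at hx ⊢
        simpa [finProdFinEquiv] using hx
      exact h5.trans h4
    rw [h1, h2]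
    unfold r4
    omega
  · have h2 := host_col_inr (blw h d (p4 h d k G t) (q4 h d k G t))
      (blw h d (q4 h d k G t) (p4 h d k G t)) (rel0 h (q4 h d k G t) G.F) y
    rw [ncard_blw_col hdh] at h2
    rw [h1, h2]
    unfold r4
    omega

theorem red4_class (hh : 0 < h) (hdh : d ≤ h) (hd : 0 < d) {w : ℕ → ℝ}
    (hw : ∀ r N : ℕ, 2 ≤ r → r ^ k ≤ N → (r : ℝ) ≤ w N) (G : BGraph) (t : ℕ) :
    DegreeRange (d / (2 * h)) (d / (2 * h)) w (red4 h d k G t) := by
  have hN : ((red4 h d k G t).a : ℝ) = 2 * h * (p4 h d k G t + s4 h G t) := by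
    have : (red4 h d k G t).a = 2 * h * (p4 h d k G t + s4 h G t) := by
      show h * p4 h d k G t + h * q4 h d k G t = _
      unfold q4
      ring
    rw [this]
    push_cast
    ring
  have hh' : (0 : ℝ) < h := by exact_mod_cast hh
  have hx : (d / (2 * h) : ℝ) * (red4 h d k G t).a = d * (p4 h d k G t + s4 h G t) := by
    rw [hN]
    field_simp
  have hw' : (r4 h d G t : ℝ) ≤ w (red4 h d k G t).a := by
    refine hw _ _ ?_ ?_
    · have h1 : 1 ≤ d * s4 h G t := Nat.mul_pos hd (by unfold s4; omega)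
      unfold r4
      omega
    · show p4 h d k G t ≤ h * p4 h d k G t + h * q4 h d k G t
      have := Nat.le_mul_of_pos_left (p4 h d k G t) hh
      omega
  refine ⟨?_, ?_, ?_⟩
  · show h * p4 h d k G t + h * q4 h d k G t = h * q4 h d k G t + h * p4 h d k G t
    ring
  · intro i
    obtain ⟨h1, h2⟩ := red4_rowDeg k hdh G t i
    have h1' : (d : ℝ) * (p4 h d k G t + s4 h G t) ≤ (red4 h d k G t).rowDeg i + r4 h d G t := by
      exact_mod_cast h1
    have h2' : ((red4 h d k G t).rowDeg i : ℝ) ≤ d * (p4 h d k G t + s4 h G t) + r4 h d G t := by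
      exact_mod_cast h2
    rw [hx]
    constructor <;> linarith
  · intro j
    obtain ⟨h1, h2⟩ := red4_colDeg k hdh G t j
    have h1' : (d : ℝ) * (p4 h d k G t + s4 h G t) ≤ (red4 h d k G t).colDeg j + r4 h d G t := by
      exact_mod_cast h1
    have h2' : ((red4 h d k G t).colDeg j : ℝ) ≤ d * (p4 h d k G t + s4 h G t) + r4 h d G t := by
      exact_mod_cast h2
    rw [hx]
    constructor <;> linarith

/-! ### Computability -/

theorem poly_s4 (h : ℕ) (D : BGraph × ℕ → Prop) :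
    PolyN D [fun x => inCode x.1 x.2] (fun x => s4 h x.1 x.2) := by
  have hw : PolyC D [fun x => inCode x.1 x.2] (fun x => inCode x.1 x.2) := PolyC.var (by simp)
  have ha := poly_a hw
  have hb := poly_b hw
  have ht := poly_s hw
  exact (((((PolyN.const h).add ha).add hb).add ht).add (PolyN.const 1))

theorem poly_p4 (h d k : ℕ) (D : BGraph × ℕ → Prop) :
    PolyN D [fun x => inCode x.1 x.2] (fun x => p4 h d k x.1 x.2) := by
  have hw : PolyC D [fun x => inCode x.1 x.2] (fun x => inCode x.1 x.2) := PolyC.var (by simp)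
  have ha := poly_a hw
  have hb := poly_b hw
  exact PolyN.pow (((((PolyN.const d).mul (poly_s4 h D)).add ha).add hb).add (PolyN.const 1)) k

theorem poly_q4 (h d k : ℕ) (D : BGraph × ℕ → Prop) :
    PolyN D [fun x => inCode x.1 x.2] (fun x => q4 h d k x.1 x.2) :=
  (poly_p4 h d k D).add ((PolyN.const 2).mul (poly_s4 h D))

theorem poly_K4 (h d k : ℕ) (D : BGraph × ℕ → Prop) :
    PolyN D [fun x => inCode x.1 x.2] (fun x => K4 h d k x.1 x.2) := by
  have hw : PolyC D [fun x => inCode x.1 x.2] (fun x => inCode x.1 x.2) := PolyC.var (by simp)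
  have ha := poly_a hw
  have hb := poly_b hw
  have hq := (PolyN.const h).mul (poly_q4 h d k D)
  exact (PolyN.sub hq ha).add (PolyN.sub hq hb)

theorem p4_pos (h d k : ℕ) (G : BGraph) (t : ℕ) : 0 < p4 h d k G t := by
  unfold p4
  have : 0 < r4 h d G t := by unfold r4; omega
  positivity

theorem q4_pos (h d k : ℕ) (G : BGraph) (t : ℕ) : 0 < q4 h d k G t := by
  have := p4_pos h d k G t
  unfold q4
  omega

theorem poly_red4 (hh : 0 < h) (D : BGraph × ℕ → Prop) :
    PolyC D [fun x => inCode x.1 x.2] (fun x => inCode (red4 h d k x.1 x.2) (2 * x.2)) := by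
  have hw : PolyC D [fun x => inCode x.1 x.2] (fun x => inCode x.1 x.2) := PolyC.var (by simp)
  have ht := poly_s hw
  have h2t := (PolyN.const 2).mul ht
  have hp := poly_p4 h d k D
  have hq := poly_q4 h d k D
  let n1 : BGraph × ℕ → ℕ := fun x => h * p4 h d k x.1 x.2 + h * q4 h d k x.1 x.2
  let n1' : BGraph × ℕ → ℕ := fun x => h * q4 h d k x.1 x.2 + h * p4 h d k x.1 x.2
  have hn1 : PolyN D [fun x => inCode x.1 x.2] n1 :=
    ((PolyN.const h).mul hp).add ((PolyN.const h).mul hq)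
  have hn1' : PolyN D [fun x => inCode x.1 x.2] n1' :=
    ((PolyN.const h).mul hq).add ((PolyN.const h).mul hp)
  refine poly_inCode (a := n1) (b := n1') hn1 hn1' h2t ?_
  have P1 := upN (n := n1) hp
  have Q1 := upN (n := n1) hq
  have W1 := up (n := n1) hw
  have I1 := last (D := D) (ctx := [fun x => inCode x.1 x.2]) (n := n1)
  let n2 : (BGraph × ℕ) × ℕ → ℕ := fun p => n1' p.1
  have P2 := upN (n := n2) P1
  have Q2 := upN (n := n2) Q1
  have W2 := up (n := n2) W1
  have I2 := upN (n := n2) I1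
  have J2 := last (D := fun p : (BGraph × ℕ) × ℕ => D p.1 ∧ p.2 < n1 p.1)
    (ctx := PolyTime.lift [fun x : BGraph × ℕ => inCode x.1 x.2] ++
      [fun p : (BGraph × ℕ) × ℕ => un p.2]) (n := n2)
  have hP2 := (PolyN.const h).mul P2
  have hQ2 := (PolyN.const h).mul Q2
  have I2' := PolyN.sub I2 hP2
  have J2' := PolyN.sub J2 hQ2
  have c1 := PolyB.lt (PolyN.mod ((PolyN.sub (PolyN.const h) (PolyN.div I2 P2
    (fun x _ => p4_pos h d k x.1.1.1 x.1.1.2))).add (PolyN.div J2 Q2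
    (fun x _ => q4_pos h d k x.1.1.1 x.1.1.2))) (PolyN.const h) (fun _ _ => hh)) (PolyN.const d)
  have c2 := PolyB.lt (PolyN.mod ((PolyN.sub (PolyN.const h) (PolyN.div I2' Q2
    (fun x _ => q4_pos h d k x.1.1.1 x.1.1.2))).add (PolyN.div J2' P2
    (fun x _ => p4_pos h d k x.1.1.1 x.1.1.2))) (PolyN.const h) (fun _ _ => hh)) (PolyN.const d)
  exact (((PolyB.lt I2 hP2).and (PolyB.lt J2 hQ2)).and c1).or
    ((((PolyB.le hP2 I2).and (PolyB.le hQ2 J2)).and c2).or
      (((PolyB.le hP2 I2).and (PolyB.lt J2 hQ2)).and (poly_F W2 I2' J2)))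

/-- Hardness for density `d / (2 h)`. -/
theorem hard_density (hh : 0 < h) (hd : 0 < d) (hdh : d ≤ h) {w : ℕ → ℝ}
    (hw : ∃ k : ℕ, ∀ r N : ℕ, 2 ≤ r → r ^ k ≤ N → (r : ℝ) ≤ w N)
    (H : HasFPRAS (DegreeRange (d / (2 * h)) (d / (2 * h)) w)) :
    HasFPRAS (fun _ => True) := by
  obtain ⟨k, hk⟩ := hw
  exact HasFPRAS.transfer (red4 h d k) (K4 h d k) (poly_red4 k hh _) (poly_K4 h d k _)
    (fun G t _ _ => red4_class k hh hdh hd hk G t)
    (fun G t _ _ => red4_lower k hh G t)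
    (fun G t _ _ => red4_upper k hh hd G t) H

/-- Hardness for rational densities at most one half. -/
theorem hard_rat (q : ℚ) (h0 : 0 < q) (h1 : q ≤ 1 / 2) {w : ℕ → ℝ}
    (hw : ∃ k : ℕ, ∀ r N : ℕ, 2 ≤ r → r ^ k ≤ N → (r : ℝ) ≤ w N)
    (H : HasFPRAS (DegreeRange q q w)) : HasFPRAS (fun _ => True) := by
  have hn : 0 < q.num := Rat.num_pos.2 h0
  have e : (q : ℝ) = ((2 * q.num.toNat : ℕ) : ℝ) / (2 * (q.den : ℝ)) := by
    have h2 : ((q.num.toNat : ℕ) : ℝ) = (q.num : ℝ) := by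
      have : ((q.num.toNat : ℕ) : ℤ) = q.num := Int.toNat_of_nonneg hn.le
      exact_mod_cast this
    have h3 : (q : ℝ) = (q.num : ℝ) / (q.den : ℝ) := by
      exact_mod_cast (Rat.num_div_den q).symm
    have h4 : (0 : ℝ) < q.den := by exact_mod_cast q.den_pos
    push_cast
    rw [h2, h3]
    field_simp
  rw [e] at H
  refine hard_density q.den_pos (by omega) ?_ hw H
  have h5 : q * 2 ≤ 1 := by linarith
  have h6 : (q.num : ℚ) * 2 ≤ q.den := by
    have h7 : (0 : ℚ) < q.den := by exact_mod_cast q.den_pos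
    have h8 : q * q.den = q.num := Rat.mul_den_eq_num q
    rw [← h8]
    nlinarith
  have h9 : q.num * 2 ≤ q.den := by exact_mod_cast h6
  omega

/-- The windows `N ^ ε`. -/
theorem window_rpow {ε : ℝ} (hε : 0 < ε) :
    ∃ k : ℕ, ∀ r N : ℕ, 2 ≤ r → r ^ k ≤ N → (r : ℝ) ≤ (N : ℝ) ^ ε := by
  obtain ⟨k, hk⟩ := exists_nat_gt (1 / ε)
  have hk' : 1 ≤ k * ε := by
    rw [div_lt_iff₀ hε] at hk
    exact hk.le
  refine ⟨k, fun r N hr hN => ?_⟩
  have h1 : (1 : ℝ) ≤ r := by
    have : 1 ≤ r := by omega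
    exact_mod_cast this
  have h2 : ((r : ℝ) ^ k) ≤ N := by exact_mod_cast hN
  calc (r : ℝ) = (r : ℝ) ^ (1 : ℝ) := (Real.rpow_one _).symm
    _ ≤ (r : ℝ) ^ ((k : ℝ) * ε) := Real.rpow_le_rpow_of_exponent_le h1 hk'
    _ = ((r : ℝ) ^ k) ^ ε := by
        rw [Real.rpow_mul (by linarith), Real.rpow_natCast]
    _ ≤ _ := Real.rpow_le_rpow (by positivity) h2 hε.le

/-- The windows `δ N`. -/
theorem window_linear {δ : ℝ} (hδ : 0 < δ) :
    ∃ k : ℕ, ∀ r N : ℕ, 2 ≤ r → r ^ k ≤ N → (r : ℝ) ≤ δ * N := by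
  obtain ⟨k, hk⟩ := exists_pow_lt_of_lt_one hδ (by norm_num : (1 / 2 : ℝ) < 1)
  refine ⟨k + 1, fun r N hr hN => ?_⟩
  have h1 : (2 : ℝ) ≤ r := by exact_mod_cast hr
  have h2 : ((r : ℝ) ^ (k + 1)) ≤ N := by exact_mod_cast hN
  have h3 : (2 : ℝ) ^ k ≤ (r : ℝ) ^ k := pow_le_pow_left₀ (by norm_num) h1 k
  have h4 : (1 / 2 : ℝ) ^ k * 2 ^ k = 1 := by rw [← mul_pow]; norm_num
  have h5 : 1 ≤ δ * (r : ℝ) ^ k := by
    have h6 : (1 / 2 : ℝ) ^ k * 2 ^ k ≤ δ * (r : ℝ) ^ k :=
      mul_le_mul hk.le h3 (by positivity) hδ.le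
    linarith
  calc (r : ℝ) = 1 * r := (one_mul _).symm
    _ ≤ (δ * (r : ℝ) ^ k) * r := mul_le_mul_of_nonneg_right h5 (by linarith)
    _ = δ * (r : ℝ) ^ (k + 1) := by ring
    _ ≤ δ * N := mul_le_mul_of_nonneg_left h2 hδ.le

/-- Hardness for ranges. -/
theorem hard_range {x y : ℝ} (hx : 0 < x) (hxy : x < y) (hx2 : x < 1 / 2)
    (H : HasFPRAS (DegreeRange x y (fun _ => 0))) : HasFPRAS (fun _ => True) := by
  obtain ⟨q, hq1, hq2⟩ := exists_rat_btwn (lt_min hxy hx2)
  have hqy : (q : ℝ) < y := hq2.trans_le (min_le_left _ _)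
  have hqh : (q : ℝ) < 1 / 2 := hq2.trans_le (min_le_right _ _)
  set δ : ℝ := min (q - x) (y - q) with hδ
  have hδ0 : 0 < δ := lt_min (by linarith) (by linarith)
  have h0 : 0 < q := by
    have : (0 : ℝ) < q := hx.trans hq1
    exact_mod_cast this
  have h1 : q ≤ 1 / 2 := by
    have : (q : ℝ) ≤ ((1 / 2 : ℚ) : ℝ) := by
      push_cast
      linarith
    exact_mod_cast this
  refine hard_rat q h0 h1 (window_linear hδ0) (H.mono ?_)
  rintro G ⟨e, hr, hc⟩
  have hN : (0 : ℝ) ≤ G.a := Nat.cast_nonneg _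
  have k1 : δ * G.a ≤ (q - x) * G.a := mul_le_mul_of_nonneg_right (min_le_left _ _) hN
  have k2 : δ * G.a ≤ (y - q) * G.a := mul_le_mul_of_nonneg_right (min_le_right _ _) hN
  refine ⟨e, fun i => ?_, fun j => ?_⟩
  · have := hr i
    constructor <;> nlinarith [this.1, this.2]
  · have := hc j
    constructor <;> nlinarith [this.1, this.2]

end Pool.Agent.Lib.Pa7c826z
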