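import Pool.Agent.Lib.Pa7c826.MinDeg
import Pool.Agent.Lib.Pa7c826z.Defs

/-!
The easy cases.
-/

namespace Pool.Agent.Lib.Pa7c826z

open Pool.Agent.Lib.Pa7c826 Finset Filter

/-- Small graphs do not matter. -/
theorem hasFPTAS_of_large {c k : ℕ} (hc : 1 ≤ c) {C : BGraph → Prop} (N0 : ℕ)
    (h : ∀ G t, C G → N0 ≤ G.a + G.b → 0 < G.a + G.b →
      ∃ A, SuperSat (G.a + G.b) (adjOf (inCode G t)) c A ∧
        2 ^ A ≤ (G.a + G.b + 1) ^ k * numIndep G.graph) : HasFPTAS C := by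
  refine hasFPTAS_of_superSat (c := c) (k := k + N0) hc ?_
  intro G t hG hn
  by_cases hN : N0 ≤ G.a + G.b
  · obtain ⟨A, h1, h2⟩ := h G t hG hN hn
    exact ⟨A, h1, h2.trans (Nat.mul_le_mul_right _ (Nat.pow_le_pow_right (by omega) (by omega)))⟩
  · refine ⟨G.a + G.b, ?_, ?_⟩
    · intro S hS
      have := card_le_card hS
      rw [card_range] at this
      exact (Nat.mul_le_mul_left _ this).trans (Nat.le_add_right _ _)
    · calc 2 ^ (G.a + G.b) ≤ 2 ^ (k + N0) := Nat.pow_le_pow_right (by norm_num) (by omega)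
        _ ≤ (G.a + G.b + 1) ^ (k + N0) := Nat.pow_le_pow_left (by omega) _
        _ = (G.a + G.b + 1) ^ (k + N0) * 1 := (mul_one _).symm
        _ ≤ _ := Nat.mul_le_mul_left _ (by
          rw [← ind_eq_numIndep G 0]
          exact ind_pos _)

/-- Large minimum degree. -/
theorem easy_minDeg {x y : ℝ} {w : ℕ → ℝ} {c : ℕ}
    (h1 : ∀ᶠ N : ℕ in atTop, w N ≤ (x - 1 / 4) * N)
    (h2 : ∀ᶠ N : ℕ in atTop, (N : ℝ) ≤ 2 * (x * N - w N) + c * Nat.log 2 (2 * N)) :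
    HasFPTAS (DegreeRange x y w) := by
  obtain ⟨N1, hN1⟩ := eventually_atTop.1 (h1.and h2)
  refine hasFPTAS_of_large (c := 4 * (c + 8)) (k := 4 * (c + 8)) (by omega) (2 * N1) ?_
  rintro G t ⟨hab, hr, hc⟩ hlarge hpos
  have ha : N1 ≤ G.a := by omega
  have hn : G.a + G.b = 2 * G.a := by omega
  obtain ⟨k1, k2⟩ := hN1 G.a ha
  have hN : (0 : ℝ) ≤ G.a := Nat.cast_nonneg _
  set P : ℕ := ⌈x * G.a - w G.a⌉₊ with hP
  have hP1 : x * G.a - w G.a ≤ P := Nat.le_ceil _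
  have hP2 : (G.a : ℝ) ≤ 4 * P := by nlinarith
  have hP2' : G.a ≤ 4 * P := by exact_mod_cast hP2
  have hP3 : G.a + G.b ≤ (c + 8) * P := by
    have : 8 * P ≤ (c + 8) * P := Nat.mul_le_mul_right _ (by omega)
    omega
  have hrow : ∀ i, P ≤ G.rowDeg i := fun i => Nat.ceil_le.2 (hr i).1
  have hcol : ∀ j, P ≤ G.colDeg j := fun j => Nat.ceil_le.2 (hc j).1
  refine superSat_minDeg_class (c := c + 8) G t hP3 hP3 hrow hcol ?_ hpos
  rw [← hab, min_self]
  have h3 : (G.a : ℝ) ≤ ((P + P + c * Nat.log 2 (2 * G.a) : ℕ) : ℝ) := by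
    push_cast
    linarith
  have h4 : G.a ≤ P + P + c * Nat.log 2 (2 * G.a) := by exact_mod_cast h3
  have h5 : c * Nat.log 2 (2 * G.a) ≤ (c + 8) * Nat.log 2 (2 * G.a) :=
    Nat.mul_le_mul_right _ (by omega)
  rw [← two_mul G.a]
  omega

/-- Almost regular. -/
theorem easy_regular {x : ℝ} (hx : 0 < x) {w : ℕ → ℝ} {c : ℕ}
    (h1 : ∀ᶠ N : ℕ in atTop, w N ≤ x / 2 * N)
    (h2 : ∀ᶠ N : ℕ in atTop, 2 * w N ≤ c * Nat.log 2 (2 * N)) :
    HasFPTAS (DegreeRange x x w) := by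
  obtain ⟨N1, hN1⟩ := eventually_atTop.1 (h1.and h2)
  obtain ⟨c1, hc1⟩ := exists_nat_gt (4 / x)
  refine hasFPTAS_of_large (c := c + c1 + 1) (k := (c + c1 + 1) * (c + c1 + 1)) (by omega)
    (2 * N1) ?_
  rintro G t ⟨hab, hr, hc⟩ hlarge hpos
  have ha : N1 ≤ G.a := by omega
  obtain ⟨k1, k2⟩ := hN1 G.a ha
  have hN : (0 : ℝ) ≤ G.a := Nat.cast_nonneg _
  set P : ℕ := ⌈x * G.a - w G.a⌉₊ with hP
  have hP1 : x * G.a - w G.a ≤ P := Nat.le_ceil _
  have hP2 : x / 2 * G.a ≤ P := by nlinarith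
  have hP3 : G.a + G.b ≤ (c + c1 + 1) * P := by
    have h3 : 2 * (G.a : ℝ) ≤ c1 * P := by
      have h4 : 4 / x * P ≤ c1 * P := mul_le_mul_of_nonneg_right hc1.le (Nat.cast_nonneg _)
      have h5 : 4 / x * (x / 2 * G.a) ≤ 4 / x * P :=
        mul_le_mul_of_nonneg_left hP2 (by positivity)
      have h6 : 4 / x * (x / 2 * G.a) = 2 * G.a := by
        field_simp
        ring
      linarith
    have h3' : 2 * G.a ≤ c1 * P := by exact_mod_cast h3
    have h7 : c1 * P ≤ (c + c1 + 1) * P := Nat.mul_le_mul_right _ (by omega)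
    omega
  refine superSat_of_class (D := P) G t hP3 (Or.inl ⟨fun i => Nat.ceil_le.2 (hr i).1,
    fun j => ?_⟩) hpos
  have h8 := (hc j).2
  have h9 : (G.colDeg j : ℝ) ≤ ((P + c * Nat.log 2 (2 * G.a) : ℕ) : ℝ) := by
    push_cast
    linarith
  have h10 : G.colDeg j ≤ P + c * Nat.log 2 (2 * G.a) := by exact_mod_cast h9
  rw [← hab, ← two_mul]
  refine h10.trans (Nat.add_le_add_left (Nat.mul_le_mul_right _ (by omega)) _)

/-! ### The windows -/

theorem log_le_natLog (N : ℕ) (hN : 1 ≤ N) : Real.log N ≤ Nat.log 2 (2 * N) := by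
  have h1 : 2 * N < 2 ^ (Nat.log 2 (2 * N)).succ := Nat.lt_pow_succ_log_self (by norm_num) _
  have h2 : N ≤ 2 ^ Nat.log 2 (2 * N) := by
    rw [pow_succ] at h1
    omega
  have h3 : Real.log N ≤ Real.log ((2 : ℝ) ^ Nat.log 2 (2 * N)) := by
    refine Real.log_le_log (by exact_mod_cast hN) ?_
    exact_mod_cast h2
  rw [Real.log_pow] at h3
  have h4 : Real.log 2 ≤ 1 := by
    have := Real.log_le_sub_one_of_pos (show (0 : ℝ) < 2 by norm_num)
    linarith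
  have h5 : (0 : ℝ) ≤ Nat.log 2 (2 * N) := Nat.cast_nonneg _
  nlinarith

theorem log_window (c : ℝ) : ∃ c' : ℕ, ∀ᶠ N : ℕ in atTop,
    2 * (c * Real.log N) ≤ c' * Nat.log 2 (2 * N) := by
  obtain ⟨c', hc'⟩ := exists_nat_gt (2 * |c|)
  refine ⟨c', ?_⟩
  filter_upwards [eventually_ge_atTop 1] with N hN
  have h1 := log_le_natLog N hN
  have h2 : 0 ≤ Real.log N := Real.log_nonneg (by exact_mod_cast hN)
  have h3 : c * Real.log N ≤ |c| * Real.log N := mul_le_mul_of_nonneg_right (le_abs_self c) h2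
  have h4 : 2 * |c| * Real.log N ≤ c' * Real.log N := mul_le_mul_of_nonneg_right hc'.le h2
  have h5 : (c' : ℝ) * Real.log N ≤ c' * Nat.log 2 (2 * N) :=
    mul_le_mul_of_nonneg_left h1 (Nat.cast_nonneg _)
  linarith

theorem log_small (c : ℝ) {δ : ℝ} (hδ : 0 < δ) : ∀ᶠ N : ℕ in atTop, c * Real.log N ≤ δ * N := by
  have h := (Real.isLittleO_log_id_atTop.comp_tendsto tendsto_natCast_atTop_atTop).const_mul_left c
  have h2 := h.bound hδ
  filter_upwards [h2] with N hN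
  simp only [Function.comp_apply, id_eq, Real.norm_eq_abs] at hN
  rw [abs_of_nonneg (Nat.cast_nonneg N : (0 : ℝ) ≤ N)] at hN
  exact (le_abs_self _).trans hN

theorem rpow_small {ε : ℝ} (hε : ε < 1) {δ : ℝ} (hδ : 0 < δ) :
    ∀ᶠ N : ℕ in atTop, (N : ℝ) ^ ε ≤ δ * N := by
  have h := (tendsto_rpow_neg_atTop (show 0 < 1 - ε by linarith)).comp
    (tendsto_natCast_atTop_atTop (R := ℝ))
  filter_upwards [h.eventually_lt_const hδ, eventually_ge_atTop 1] with N h1 h2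
  simp only [Function.comp_apply] at h1
  have hN : (0 : ℝ) < N := by exact_mod_cast h2
  have e : (N : ℝ) ^ ε = (N : ℝ) ^ (-(1 - ε)) * N := by
    nth_rewrite 3 [← Real.rpow_one (N : ℝ)]
    rw [← Real.rpow_add hN]
    congr 1
    ring
  rw [e]
  exact mul_le_mul_of_nonneg_right h1.le hN.le

end Pool.Agent.Lib.Pa7c826z
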