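import Pool.Agent.Lib.Pa7c826y.Hard

/-!
The host of the hard instances: two blown-up circulant templates.
-/

namespace Pool.Agent.Lib.Pa7c826z

open Pool.Agent.Lib.Pa7c826
open Pool.Agent.Lib.Pa7c826y

/-! ### Joining -/

/-- Two bipartite graphs side by side, with the edges of a third one between the left part of the
second and the right part of the first. -/
def host {α β γ δ : Type*} (E1 : α → γ → Prop) (E2 : β → δ → Prop) (E0 : β → γ → Prop) :
    α ⊕ β → γ ⊕ δ → Prop
  | .inl x, .inl y => E1 x y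
  | .inr x, .inr y => E2 x y
  | .inr x, .inl y => E0 x y
  | .inl _, .inr _ => False

section

variable {α β γ δ : Type*}

/-- splitting of pairs -/
def split4 (z : Set (α ⊕ β) × Set (γ ⊕ δ)) : (Set α × Set γ) × (Set β × Set δ) :=
  ((Sum.inl ⁻¹' z.1, Sum.inl ⁻¹' z.2), (Sum.inr ⁻¹' z.1, Sum.inr ⁻¹' z.2))

theorem split4_injective : Function.Injective
    (split4 : Set (α ⊕ β) × Set (γ ⊕ δ) → (Set α × Set γ) × (Set β × Set δ)) := by
  rintro ⟨P, Q⟩ ⟨P', Q'⟩ h
  simp only [split4, Prod.mk.injEq] at h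
  obtain ⟨⟨h1, h2⟩, h3, h4⟩ := h
  rw [Prod.mk.injEq]
  constructor
  · ext (x | x)
    · exact Set.ext_iff.1 h1 x
    · exact Set.ext_iff.1 h3 x
  · ext (x | x)
    · exact Set.ext_iff.1 h2 x
    · exact Set.ext_iff.1 h4 x

/-- pairs in the middle -/
def mid (z : Set β × Set γ) : (Set α × Set γ) × (Set β × Set δ) := ((∅, z.2), (z.1, ∅))

theorem mid_injective : Function.Injective
    (mid : Set β × Set γ → (Set α × Set γ) × (Set β × Set δ)) := by
  rintro ⟨P, Q⟩ ⟨P', Q'⟩ h
  simp only [mid, Prod.mk.injEq, true_and, and_true] at h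
  rw [Prod.mk.injEq]
  exact ⟨h.2, h.1⟩

theorem host_bounds [Finite α] [Finite β] [Finite γ] [Finite δ]
    (E1 : α → γ → Prop) (E2 : β → δ → Prop) (E0 : β → γ → Prop) :
    cnt E0 ≤ cnt (host E1 E2 E0) ∧
    cnt (host E1 E2 E0) + 2 ^ (Nat.card β + Nat.card γ) ≤ cnt E0 + cnt E1 * cnt E2 := by
  classical
  rw [cnt_eq_ncard, cnt_eq_ncard, cnt_eq_ncard, cnt_eq_ncard]
  have h1 : split4 '' ind (host E1 E2 E0) ⊆
      (mid '' ind E0 ∪ ((ind E1 ×ˢ ind E2) \ Set.range mid) :
        Set ((Set α × Set γ) × (Set β × Set δ))) := by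
    rintro _ ⟨⟨P, Q⟩, h, rfl⟩
    have hI : split4 (P, Q) ∈ (ind E1 ×ˢ ind E2 : Set ((Set α × Set γ) × (Set β × Set δ))) := by
      constructor
      · intro x hx y hy
        exact h (Sum.inl x) hx (Sum.inl y) hy
      · intro x hx y hy
        exact h (Sum.inr x) hx (Sum.inr y) hy
    by_cases hm : split4 (P, Q) ∈ Set.range (mid : Set β × Set γ → _)
    · left
      obtain ⟨⟨P', Q'⟩, hz⟩ := hm
      refine ⟨(P', Q'), ?_, hz⟩
      simp only [mid, split4, Prod.mk.injEq] at hz
      obtain ⟨⟨_, h2⟩, h3, _⟩ := hz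
      intro x hx y hy
      have hx' : x ∈ P' := hx
      have hy' : y ∈ Q' := hy
      rw [h3] at hx'
      rw [h2] at hy'
      exact h (Sum.inr x) hx' (Sum.inl y) hy'
    · exact Or.inr ⟨hI, hm⟩
  have h2 : (mid '' ind E0 : Set ((Set α × Set γ) × (Set β × Set δ))) ⊆
      split4 '' ind (host E1 E2 E0) := by
    rintro _ ⟨⟨P, Q⟩, h, rfl⟩
    refine ⟨(Sum.inr '' P, Sum.inl '' Q), ?_, ?_⟩
    · rintro _ ⟨x, hx, rfl⟩ _ ⟨y, hy, rfl⟩
      exact h x hx y hy
    · simp only [mid, split4, Prod.mk.injEq]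
      refine ⟨⟨?_, ?_⟩, ?_, ?_⟩ <;> ext x <;> simp
  have h3 : Set.range (mid : Set β × Set γ → (Set α × Set γ) × (Set β × Set δ)) ⊆
      ind E1 ×ˢ ind E2 := by
    rintro _ ⟨⟨P, Q⟩, rfl⟩
    constructor
    · intro x hx
      exact absurd hx (Set.notMem_empty x)
    · intro x _ y hy
      exact absurd hy (Set.notMem_empty y)
  have c1 : (split4 '' ind (host E1 E2 E0)).ncard = (ind (host E1 E2 E0)).ncard :=
    Set.ncard_image_of_injective _ split4_injective
  have c2 : (mid '' ind E0 : Set ((Set α × Set γ) × (Set β × Set δ))).ncard = (ind E0).ncard :=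
    Set.ncard_image_of_injective _ mid_injective
  have c3 : (Set.range (mid : Set β × Set γ → (Set α × Set γ) × (Set β × Set δ))).ncard =
      2 ^ (Nat.card β + Nat.card γ) := by
    rw [← Set.image_univ, Set.ncard_image_of_injective _ mid_injective, Set.ncard_univ,
      Nat.card_prod, card_set', card_set', pow_add]
  have c4 : (ind E1 ×ˢ ind E2).ncard = (ind E1).ncard * (ind E2).ncard := Set.ncard_prod
  constructor
  · rw [← c1, ← c2]
    exact Set.ncard_le_ncard h2 (Set.toFinite _)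
  · have h4 := (Set.ncard_le_ncard h1 (Set.toFinite _)).trans (Set.ncard_union_le _ _)
    have h5 := Set.ncard_sdiff_add_ncard_of_subset h3 (Set.toFinite _)
    rw [c1, c2] at h4
    rw [c3, c4] at h5
    omega

theorem cnt_anti [Finite α] [Finite γ] {E E' : α → γ → Prop} (h : ∀ x y, E x y → E' x y) :
    cnt E' ≤ cnt E := by
  rw [cnt_eq_ncard, cnt_eq_ncard]
  refine Set.ncard_le_ncard ?_ (Set.toFinite _)
  intro z hz x hx y hy hE
  exact hz x hx y hy (h x y hE)

end

/-- The blow-up of the identity matching. -/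
theorem cnt_blow_le (ι μ ν : Type*) [Finite ι] [Finite μ] [Finite ν] :
    cnt (fun (x : ι × μ) (y : ι × ν) => x.1 = y.1) ≤
      (2 ^ Nat.card μ + 2 ^ Nat.card ν) ^ Nat.card ι := by
  classical
  have := Fintype.ofFinite ι
  have e : (2 ^ Nat.card μ + 2 ^ Nat.card ν) ^ Nat.card ι = Nat.card (ι → Set μ ⊕ Set ν) := by
    rw [Nat.card_fun, Nat.card_sum, card_set', card_set']
  rw [e]
  unfold cnt
  refine Nat.card_le_card_of_injective (fun P i =>
    if (∃ a, (i, a) ∈ P.1.1) then Sum.inl {a | (i, a) ∈ P.1.1} else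
      Sum.inr {b | (i, b) ∈ P.1.2}) ?_
  rintro ⟨⟨P, Q⟩, h⟩ ⟨⟨P', Q'⟩, h'⟩ hf
  have hP : P = P' := by
    ext ⟨i, a⟩
    have hi := congrFun hf i
    simp only at hi
    split_ifs at hi with h1 h2 h2
    · rw [Sum.inl.injEq] at hi
      exact Set.ext_iff.1 hi a
    · constructor
      · intro h3; exact absurd ⟨a, h3⟩ h1
      · intro h3; exact absurd ⟨a, h3⟩ h2
  have hQ : Q = Q' := by
    ext ⟨i, b⟩
    have hi := congrFun hf i
    simp only at hi
    split_ifs at hi with h1 h2 h2
    · obtain ⟨a, ha⟩ := h1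
      obtain ⟨a', ha'⟩ := h2
      constructor
      · intro h3; exact absurd rfl (h _ ha _ h3)
      · intro h3; exact absurd rfl (h' _ ha' _ h3)
    · rw [Sum.inr.injEq] at hi
      exact Set.ext_iff.1 hi b
  simp only [Subtype.mk.injEq, Prod.mk.injEq]
  exact ⟨hP, hQ⟩

/-! ### Degrees -/

theorem ncard_blow {ι μ : Type*} (S : Set ι) :
    {y : ι × μ | y.1 ∈ S}.ncard = S.ncard * Nat.card μ := by
  have : {y : ι × μ | y.1 ∈ S} = S ×ˢ (Set.univ : Set μ) := by
    ext y
    simp
  rw [this, Set.ncard_prod, Set.ncard_univ]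

section

variable {α β γ δ : Type*}

theorem host_row_inl (E1 : α → γ → Prop) (E2 : β → δ → Prop) (E0 : β → γ → Prop) (x : α) :
    {y | host E1 E2 E0 (.inl x) y}.ncard = {y | E1 x y}.ncard := by
  have : {y | host E1 E2 E0 (.inl x) y} = Sum.inl '' {y | E1 x y} := by
    ext (y | y) <;> simp [host]
  rw [this, Set.ncard_image_of_injective _ Sum.inl_injective]

theorem host_row_inr [Finite γ] [Finite δ] (E1 : α → γ → Prop) (E2 : β → δ → Prop)
    (E0 : β → γ → Prop) (x : β) :
    {y | host E1 E2 E0 (.inr x) y}.ncard = {y | E0 x y}.ncard + {y | E2 x y}.ncard := by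
  have : {y | host E1 E2 E0 (.inr x) y} = Sum.inl '' {y | E0 x y} ∪ Sum.inr '' {y | E2 x y} := by
    ext (y | y) <;> simp [host]
  rw [this, Set.ncard_union_eq (by
    rw [Set.disjoint_left]
    rintro _ ⟨y, _, rfl⟩ ⟨j, _, h⟩
    simp at h) (Set.toFinite _) (Set.toFinite _),
    Set.ncard_image_of_injective _ Sum.inl_injective,
    Set.ncard_image_of_injective _ Sum.inr_injective]

theorem host_col_inr (E1 : α → γ → Prop) (E2 : β → δ → Prop) (E0 : β → γ → Prop) (y : δ) :
    {x | host E1 E2 E0 x (.inr y)}.ncard = {x | E2 x y}.ncard := by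
  have : {x | host E1 E2 E0 x (.inr y)} = Sum.inr '' {x | E2 x y} := by
    ext (x | x) <;> simp [host]
  rw [this, Set.ncard_image_of_injective _ Sum.inr_injective]

theorem host_col_inl [Finite α] [Finite β] (E1 : α → γ → Prop) (E2 : β → δ → Prop)
    (E0 : β → γ → Prop) (y : γ) :
    {x | host E1 E2 E0 x (.inl y)}.ncard = {x | E1 x y}.ncard + {x | E0 x y}.ncard := by
  have : {x | host E1 E2 E0 x (.inl y)} = Sum.inl '' {x | E1 x y} ∪ Sum.inr '' {x | E0 x y} := by
    ext (x | x) <;> simp [host]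
  rw [this, Set.ncard_union_eq (by
    rw [Set.disjoint_left]
    rintro _ ⟨y, _, rfl⟩ ⟨j, _, h⟩
    simp at h) (Set.toFinite _) (Set.toFinite _),
    Set.ncard_image_of_injective _ Sum.inl_injective,
    Set.ncard_image_of_injective _ Sum.inr_injective]

end

/-! ### Circulants -/

/-- the circulant template -/
def cir (h d u v : ℕ) : Prop := (h - u + v) % h < d

theorem ncard_cir_row {h d : ℕ} (hd : d ≤ h) (u : Fin h) :
    {v : Fin h | cir h d u v}.ncard = d := by
  have hh : 0 < h := Nat.pos_of_ne_zero (by rintro rfl; exact u.elim0)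
  have : NeZero h := ⟨hh.ne'⟩
  have e : {v : Fin h | cir h d u v} = (fun v : Fin h => v - u) ⁻¹' {w | (w : ℕ) < d} := by
    ext v
    simp only [Set.mem_ofPred_eq, Set.mem_preimage, cir, Fin.val_sub]
  have e2 : ((fun v : Fin h => v - u) ⁻¹' {w : Fin h | (w : ℕ) < d}).ncard =
      {w : Fin h | (w : ℕ) < d}.ncard :=
    Set.ncard_preimage_of_injective_subset_range (sub_left_injective) (by
      have hr : Set.range (fun v : Fin h => v - u) = Set.univ :=
        (Equiv.subRight u).surjective.range_eq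
      rw [hr]
      exact Set.subset_univ _)
  rw [e, e2]
  have e3 : {w : Fin h | (w : ℕ) < d} = Set.range (Fin.castLE hd) := by
    ext w
    simp only [Set.mem_ofPred_eq, Set.mem_range]
    constructor
    · intro hw; exact ⟨⟨w, hw⟩, rfl⟩
    · rintro ⟨z, rfl⟩; exact z.2
  rw [e3, Set.ncard_range_of_injective (Fin.castLE_injective hd), Nat.card_fin]

theorem ncard_cir_col {h d : ℕ} (hd : d ≤ h) (v : Fin h) :
    {u : Fin h | cir h d u v}.ncard = d := by
  have hh : 0 < h := Nat.pos_of_ne_zero (by rintro rfl; exact v.elim0)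
  have : NeZero h := ⟨hh.ne'⟩
  have e : {u : Fin h | cir h d u v} = (fun u : Fin h => v - u) ⁻¹' {w | (w : ℕ) < d} := by
    ext u
    simp only [Set.mem_ofPred_eq, Set.mem_preimage, cir, Fin.val_sub]
  have e2 : ((fun u : Fin h => v - u) ⁻¹' {w : Fin h | (w : ℕ) < d}).ncard =
      {w : Fin h | (w : ℕ) < d}.ncard :=
    Set.ncard_preimage_of_injective_subset_range (sub_right_injective) (by
      have hr : Set.range (fun u : Fin h => v - u) = Set.univ :=
        (Equiv.subLeft v).surjective.range_eq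
      rw [hr]
      exact Set.subset_univ _)
  rw [e, e2]
  have e3 : {w : Fin h | (w : ℕ) < d} = Set.range (Fin.castLE hd) := by
    ext w
    simp only [Set.mem_ofPred_eq, Set.mem_range]
    constructor
    · intro hw; exact ⟨⟨w, hw⟩, rfl⟩
    · rintro ⟨z, rfl⟩; exact z.2
  rw [e3, Set.ncard_range_of_injective (Fin.castLE_injective hd), Nat.card_fin]

theorem cir_self {h d : ℕ} (hd : 0 < d) (u : Fin h) : cir h d u u := by
  unfold cir
  have : h - (u : ℕ) + u = h := by have := u.2; omega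
  rw [this, Nat.mod_self]
  exact hd

/-! ### The relation of the reduction -/

/-- blown-up template -/
def blw (h d p q : ℕ) (x : Fin h × Fin p) (y : Fin h × Fin q) : Prop := cir h d x.1 y.1

theorem cnt_blw_le {h d : ℕ} (hd : 0 < d) (p q : ℕ) :
    cnt (blw h d p q) ≤ (2 ^ p + 2 ^ q) ^ h := by
  have h1 := cnt_blow_le (Fin h) (Fin p) (Fin q)
  rw [Nat.card_fin, Nat.card_fin, Nat.card_fin] at h1
  refine (cnt_anti ?_).trans h1
  rintro x y hxy
  have h2 : x.1 = y.1 := hxy
  unfold blw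
  rw [h2]
  exact cir_self hd _

theorem ncard_blw_row {h d p q : ℕ} (hd : d ≤ h) (x : Fin h × Fin p) :
    {y | blw h d p q x y}.ncard = d * q := by
  have := ncard_blow (μ := Fin q) {v : Fin h | cir h d x.1 v}
  rw [ncard_cir_row hd, Nat.card_fin] at this
  exact this

theorem ncard_blw_col {h d p q : ℕ} (hd : d ≤ h) (y : Fin h × Fin q) :
    {x | blw h d p q x y}.ncard = d * p := by
  have := ncard_blow (μ := Fin p) {u : Fin h | cir h d u y.1}
  rw [ncard_cir_col hd, Nat.card_fin] at this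
  exact this

end Pool.Agent.Lib.Pa7c826z
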